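import Pool.Agent.H207.BT.Stm6
import Pool.Agent.H404.BT207.TOP

/-!
# Project BT: targets for the solution, with times
-/

set_option autoImplicit false

open Topology Filter Metric Set

namespace Pool.Agent.H947.BT207

open Pool.Agent.H211.HY Pool.Agent.H207.BT

/-- comparison of the times -/
theorem time_le {n E δ r : ℝ} {M : ℕ} (hM : (M : ℝ) ≤ E * (1 + Real.log (1 / δ))) (hE : 0 ≤ E)
    (hn : 0 ≤ n) (hr : 0 < r) (hr1 : r ≤ 1) (hδ : r ≤ δ) :
    ((M + 1 : ℕ) : ℝ) ≤ (n + E + 1) * (1 + Real.log (1 / r)) := by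
  have h1 : Real.log (1 / δ) ≤ Real.log (1 / r) := by
    have h0 : 0 < δ := lt_of_lt_of_le hr hδ
    exact Real.log_le_log (by positivity) (one_div_le_one_div_of_le hr hδ)
  have h2 : 0 ≤ Real.log (1 / r) := by
    apply Real.log_nonneg
    rw [le_div_iff₀ hr]
    linarith
  have h3 : E * Real.log (1 / δ) ≤ E * Real.log (1 / r) := mul_le_mul_of_nonneg_left h1 hE
  have h4 : 0 ≤ n * Real.log (1 / r) := mul_nonneg hn h2
  push_cast
  nlinarith

theorem time_le' {n E r : ℝ} {M : ℕ} (hM : (M : ℝ) = n) (hE : 0 ≤ E) (hr : 0 < r) (hr1 : r ≤ 1) :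
    (M : ℝ) ≤ (n + E + 1) * (1 + Real.log (1 / r)) := by
  have hn : 0 ≤ n := by rw [← hM]; positivity
  have h2 : 0 ≤ Real.log (1 / r) := by
    apply Real.log_nonneg
    rw [le_div_iff₀ hr]
    linarith
  have h4 : 0 ≤ (n + E + 1) * Real.log (1 / r) := mul_nonneg (by linarith) h2
  rw [hM]
  nlinarith

open Pool.Agent.H404.BT207.TopAux in
/-- **Targets for the solution, with times.** -/
theorem t_TOPT (h : Pool.Agent.H207.BT.S_VTT) : Pool.Agent.H207.BT.S_TOPT := by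
  intro k f v z x ρ C c μ κ m RP η B hS σ hσ
  rcases isEmpty_or_nonempty (Fin k) with he | ⟨⟨i₀⟩⟩
  · exact ⟨1, one_pos, fun ε hε => ⟨1, one_pos, 1, one_pos, fun i => (he.false i).elim⟩⟩
  have hB := hS.B1
  have hη := hS.η0
  have hG := hS.good i₀
  have hC1 := hG.C1
  have hc0 := hG.c0
  have hμ1 := hG.μ1
  have hB0 : 0 < B := by linarith
  have hc1 : c ≤ 1 := by
    have h1 := hG.gr 0
    rw [DD, Finset.range_zero, Finset.prod_empty, norm_one, pow_zero, mul_one] at h1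
    exact h1
  -- constants
  obtain ⟨s, hs⟩ : ∃ s : ℝ, s = min σ 1 := ⟨_, rfl⟩
  have hs0 : 0 < s := by rw [hs]; exact lt_min hσ one_pos
  have hs1 : s ≤ 1 := by rw [hs]; exact min_le_right _ _
  have hsσ : s ≤ σ := by rw [hs]; exact min_le_left _ _
  obtain ⟨C', hC'⟩ : ∃ C' : ℝ, C' = C * μ := ⟨_, rfl⟩
  have hCC' : C ≤ C' := by rw [hC']; nlinarith
  have hμC' : μ ≤ C' := by rw [hC']; nlinarith
  have hC'1 : 1 < C' := by linarith
  obtain ⟨γ, hγ⟩ : ∃ γ : ℝ, γ = Real.log μ / Real.log C' := ⟨_, rfl⟩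
  have hγ0 : 0 < γ := by
    rw [hγ]
    exact div_pos (Real.log_pos hμ1) (Real.log_pos hC'1)
  have hγ1 : γ ≤ 1 := by
    rw [hγ, div_le_one (Real.log_pos hC'1)]
    exact Real.log_le_log (by linarith) hμC'
  obtain ⟨δ₀, hδ₀, -, K, hK, E₁, hE₁, hVT⟩ := h k f v z x ρ C c μ κ m RP η B hS (γ / 16) (by linarith)
  have hK0 : 0 < K := by linarith
  refine ⟨2 * B / s, by positivity, fun ε hε => ?_⟩
  obtain ⟨ε₁, hε₁⟩ : ∃ e : ℝ, e = min (min ε η) (min 1 δ₀) := ⟨_, rfl⟩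
  have he0 : 0 < ε₁ := by rw [hε₁]; exact lt_min (lt_min hε hη) (lt_min one_pos hδ₀)
  have heε : ε₁ ≤ ε := by rw [hε₁]; exact (min_le_left _ _).trans (min_le_left _ _)
  have heη : ε₁ ≤ η := by rw [hε₁]; exact (min_le_left _ _).trans (min_le_right _ _)
  have he1 : ε₁ ≤ 1 := by rw [hε₁]; exact (min_le_right _ _).trans (min_le_left _ _)
  have heδ : ε₁ ≤ δ₀ := by rw [hε₁]; exact (min_le_right _ _).trans (min_le_right _ _)
  obtain ⟨c₁, hc₁⟩ : ∃ c₁ : ℝ, c₁ = c / B := ⟨_, rfl⟩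
  have hc₁0 : 0 < c₁ := by rw [hc₁]; positivity
  have hc₁1 : c₁ ≤ 1 := by
    rw [hc₁, div_le_one hB0]
    linarith
  obtain ⟨t, ht⟩ : ∃ t : ℝ, t = s / (2 * B) := ⟨_, rfl⟩
  have ht0 : 0 < t := by rw [ht]; positivity
  have ht1 : t ≤ 1 := by
    rw [ht, div_le_one (by positivity)]
    linarith
  obtain ⟨M, hM⟩ : ∃ M : ℕ, ∀ l, m l ≤ M :=
    ⟨∑ l, m l, fun l => Finset.single_le_sum (fun _ _ => Nat.zero_le _) (Finset.mem_univ l)⟩
  obtain ⟨a, ha⟩ : ∃ a : ℝ, a = t ^ (M + 1) * c₁ := ⟨_, rfl⟩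
  have ha0 : 0 < a := by rw [ha]; positivity
  obtain ⟨E, hE⟩ : ∃ E : ℝ, E = γ / 2 - γ / 16 := ⟨_, rfl⟩
  have hE0 : 0 < E := by rw [hE]; linarith
  obtain ⟨κ₀, hκ₀⟩ : ∃ κ₀ : ℝ, κ₀ = s * a ^ 3 / (B * K) := ⟨_, rfl⟩
  have hκ0 : 0 < κ₀ := by rw [hκ₀]; positivity
  obtain ⟨ρ₁, hρ₁, L, Mf, hfar⟩ := hS.far (s * ε₁) (by positivity)
    (mul_le_one₀ hs1 he0.le he1)
  refine ⟨min (min ρ₁ 1) (min (s * ε₁ / (|L| + 1)) (κ₀ ^ (E⁻¹))), lt_min (lt_min hρ₁ one_pos)
    (lt_min (by positivity) (Real.rpow_pos_of_pos hκ0 _)), (Mf : ℝ) + E₁ + 1, by positivity, ?_⟩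
  intro i N r hr hrr hR1 hor
  have hrρ : r ≤ ρ₁ := hrr.trans ((min_le_left _ _).trans (min_le_left _ _))
  have hr1 : r ≤ 1 := hrr.trans ((min_le_left _ _).trans (min_le_right _ _))
  have hrL : r ≤ s * ε₁ / (|L| + 1) :=
    hrr.trans ((min_le_right _ _).trans (min_le_left _ _))
  have hrκ : r ≤ κ₀ ^ (E⁻¹) := hrr.trans ((min_le_right _ _).trans (min_le_right _ _))
  have hGi := hS.good i
  obtain ⟨P, hP⟩ : ∃ P : ℝ, P = ‖DD (f i) (z i) N‖ := ⟨_, rfl⟩
  rw [← hP] at hR1 hor ⊢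
  have hμN : 1 ≤ μ ^ N := one_le_pow₀ hμ1.le
  have hP0 : 0 < P := by
    have h1 := hGi.gr N
    rw [← hP] at h1
    refine lt_of_lt_of_le ?_ h1
    positivity
  obtain ⟨R, hR⟩ : ∃ R : ℝ, R = r * P := ⟨_, rfl⟩
  rw [← hR] at hR1 hor ⊢
  have hR0 : 0 < R := by rw [hR]; positivity
  by_cases hcase : ε₁ ≤ R
  · obtain ⟨q, hq1, -, hq3, hq4⟩ := hfar i N
    have hsub : ball (0 : Fin k → ℂ) r ⊆ ball 0 ρ₁ := ball_subset_ball hrρ
    refine ⟨q, Mf, time_le' rfl hE₁.le hr hr1, fun s' hs' => hq4 s' (hsub hs'),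
      fun s' hs' s'' hs'' => ?_, ?_⟩
    · refine (hq1 s' (hsub hs') s'' (hsub hs'')).trans ?_
      refine mul_le_mul_of_nonneg_right ?_ (norm_nonneg _)
      have h1 : r * (|L| + 1) ≤ s * ε₁ := (le_div_iff₀ (by positivity)).1 hrL
      have h2 : r * |L| ≤ r * (s * P) := by
        calc r * |L| ≤ r * (|L| + 1) := by
              refine mul_le_mul_of_nonneg_left ?_ hr.le
              linarith
          _ ≤ s * ε₁ := h1
          _ ≤ s * R := mul_le_mul_of_nonneg_left hcase hs0.le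
          _ = r * (s * P) := by rw [hR]; ring
      have h3 : |L| ≤ s * P := le_of_mul_le_mul_left h2 hr
      calc L ≤ |L| := le_abs_self L
        _ ≤ s * P := h3
        _ ≤ σ * P := mul_le_mul_of_nonneg_right hsσ hP0.le
    · calc ‖q 0 - z i N‖ ≤ s * ε₁ := hq3
        _ ≤ s * R := mul_le_mul_of_nonneg_left hcase hs0.le
        _ ≤ σ * R := mul_le_mul_of_nonneg_right hsσ hR0.le
  · have hRe : R < ε₁ := not_le.1 hcase
    have hA : 2 * B / s * x i N ≤ R := by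
      rcases hor with h1 | h1
      · exact absurd (heε.trans h1) hcase
      · exact h1
    obtain ⟨hx0, hx1⟩ := hGi.xx N
    have hxt : x i N ≤ t * R := by
      have h1 : x i N = t * (2 * B / s * x i N) := by
        rw [ht]
        field_simp
      rw [h1]
      exact mul_le_mul_of_nonneg_left hA ht0.le
    have htR : t * R ≤ R := mul_le_of_le_one_left hR0.le ht1
    have hxR : x i N ≤ R := hxt.trans htR
    obtain ⟨l, hl1, hl2⟩ := hS.close i N (by linarith)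
    have hml := hS.mpos l
    -- the lower bound (1)
    have k1 : c₁ * μ ^ N ≤ R ^ m l * P := by
      have h1 := (hGi.gr (N + 1)).trans hl1
      rw [← hP] at h1
      have h2 : B * x i N ^ m l * P ≤ B * R ^ m l * P := by gcongr
      have h3 : c * μ ^ N ≤ c * μ ^ (N + 1) := by
        refine mul_le_mul_of_nonneg_left ?_ hc0.le
        exact pow_le_pow_right₀ hμ1.le (Nat.le_succ N)
      have h4 : c * μ ^ N ≤ B * (R ^ m l * P) := by linarith
      rw [hc₁, div_mul_eq_mul_div, div_le_iff₀ hB0]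
      linarith
    -- the lower bound (2)
    have k2 : c₁ ≤ r * P ^ 2 := by
      have h1 : c₁ ≤ R ^ m l * P := by
        refine le_trans ?_ k1
        have : c₁ * 1 ≤ c₁ * μ ^ N := mul_le_mul_of_nonneg_left hμN hc₁0.le
        linarith
      have h2 : R ^ m l ≤ R := by
        calc R ^ m l ≤ R ^ 1 := pow_le_pow_of_le_one hR0.le hR1 hml
          _ = R := pow_one R
      calc c₁ ≤ R ^ m l * P := h1
        _ ≤ R * P := mul_le_mul_of_nonneg_right h2 hP0.le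
        _ = r * P ^ 2 := by rw [hR]; ring
    have k3 : c₁ * r ^ (-(γ / 2)) ≤ μ ^ N := by
      refine mu_low hC'1 hμ1 hγ hγ0 hγ1 hP0.le ?_ hr hc₁0 hc₁1 k2
      rw [hP]
      exact (dd_le hGi N).trans (pow_le_pow_left₀ (by linarith) hCC' N)
    have k4 : B * K ≤ s * a ^ 3 * r ^ (-(γ / 2 - γ / 16)) := by
      have h1 : r ^ E ≤ κ₀ := by
        calc r ^ E ≤ (κ₀ ^ (E⁻¹)) ^ E := Real.rpow_le_rpow hr.le hrκ hE0.le
          _ = κ₀ := by
            rw [← Real.rpow_mul hκ0.le, inv_mul_cancel₀ hE0.ne', Real.rpow_one]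
      have h2 : 0 < r ^ E := Real.rpow_pos_of_pos hr _
      rw [← hE, Real.rpow_neg hr.le, ← div_eq_mul_inv, le_div_iff₀ h2]
      rw [hκ₀, le_div_iff₀ (by positivity)] at h1
      linarith
    obtain ⟨n1, n2⟩ := num (m := m l) (M := M) hs0 hs1 (hM l) ht0 ht1 hc₁0 hc₁1 ha hr hR
      hP0 hμN k1 k3 (by linarith : 0 < γ / 16) (by linarith) k4
    obtain ⟨y, hy⟩ : ∃ y : ℝ, y = t * R := ⟨_, rfl⟩
    rw [← hy] at n1 n2 hxt htR
    have hy0 : 0 < y := by rw [hy]; positivity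
    have hye : y < ε₁ := by linarith
    obtain ⟨δ, hδ⟩ : ∃ δ : ℝ, δ = y ^ (m l + 1) := ⟨_, rfl⟩
    rw [← hδ] at n1 n2
    have hδ0 : 0 < δ := by rw [hδ]; positivity
    have hδδ : δ ≤ δ₀ := by
      have h1 : y ^ (m l + 1) ≤ y := by
        calc y ^ (m l + 1) ≤ y ^ 1 := pow_le_pow_of_le_one hy0.le (by linarith) (by omega)
          _ = y := pow_one y
      rw [hδ]
      linarith
    obtain ⟨w, M₂, hM₂, hw1, hw2, hw3, hw4⟩ := hVT l δ hδ0 hδδ
    obtain ⟨D, hD⟩ : ∃ D : ℝ, D = ‖w 0 - z l 0‖ := ⟨_, rfl⟩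
    rw [← hD] at hw1 hw2
    have hδb : 0 < δ ^ (1 + γ / 16) := Real.rpow_pos_of_pos hδ0 _
    have hD0 : 0 < D := lt_of_lt_of_le hδb hw1
    obtain ⟨y', hy'⟩ : ∃ y' : ℝ, y' = D ^ (((m l + 1 : ℕ) : ℝ)⁻¹) := ⟨_, rfl⟩
    have hy'0 : 0 < y' := by rw [hy']; exact Real.rpow_pos_of_pos hD0 _
    have hy'D : y' ^ (m l + 1) = D := by
      rw [hy']
      exact Real.rpow_inv_natCast_pow hD0.le (Nat.succ_ne_zero _)
    have hy'y : y' ≤ y := by
      refine le_of_pow_le_pow_left₀ (Nat.succ_ne_zero (m l)) hy0.le ?_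
      show y' ^ (m l + 1) ≤ y ^ (m l + 1)
      rw [hy'D, ← hδ]
      exact hw2
    have hrK : r ≤ δ ^ (1 + γ / 16) / K := by
      rw [le_div_iff₀ hK0]
      have h1 : 1 * (K * r) ≤ B * (K * r) := mul_le_mul_of_nonneg_right hB (by positivity)
      linarith
    have hsub : ball (0 : Fin k → ℂ) r ⊆ ball 0 (δ ^ (1 + γ / 16) / K) := ball_subset_ball hrK
    obtain ⟨q, hq1, -, hq3, hq4⟩ := hl2 w y' r K M₂ hy'0 (by linarith) (by rw [hy'D, hD]) hr hK
      (by rw [hy'D]; linarith) (fun s' hs' s'' hs'' => hw3 s' (hsub hs') s'' (hsub hs''))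
      (fun s' hs' => hw4 s' (hsub hs'))
    have k5 : y ^ m l * δ ^ (γ / 16) ≤ y' ^ m l := by
      have hb0 : 0 < δ ^ (γ / 16) := Real.rpow_pos_of_pos hδ0 _
      have h1 : y' * (y ^ m l * δ ^ (γ / 16)) ≤ y' * y' ^ m l := by
        calc y' * (y ^ m l * δ ^ (γ / 16)) ≤ y * (y ^ m l * δ ^ (γ / 16)) := by gcongr
          _ = y ^ (m l + 1) * δ ^ (γ / 16) := by rw [pow_succ]; ring
          _ = δ ^ (1 + γ / 16) := by rw [← hδ, Real.rpow_add hδ0, Real.rpow_one]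
          _ ≤ D := hw1
          _ = y' * y' ^ m l := by rw [← hy'D, pow_succ]; ring
      exact le_of_mul_le_mul_left h1 hy'0
    have k6 : r ≤ δ := by
      have h1 : 1 * r ≤ B * K * r := mul_le_mul_of_nonneg_right (by nlinarith) hr.le
      have h2 : δ ≤ 1 := by
        rw [hδ]
        exact pow_le_one₀ hy0.le (by linarith)
      have h3 : δ ^ (1 + γ / 16) ≤ δ := by
        calc δ ^ (1 + γ / 16) ≤ δ ^ (1 : ℝ) :=
              Real.rpow_le_rpow_of_exponent_ge hδ0 h2 (by linarith)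
          _ = δ := Real.rpow_one δ
      linarith
    refine ⟨q, M₂ + 1, time_le hM₂ hE₁.le (Nat.cast_nonneg Mf) hr hr1 k6, hq4,
      fun s' hs' s'' hs'' => ?_, ?_⟩
    · have h1 := hq3 s' hs' s'' hs''
      have h2 : B * K ≤ s * y' ^ m l * P := by
        refine n2.trans ?_
        gcongr
      have h3 : y' ^ m l * ‖q s' - q s''‖ ≤ y' ^ m l * (s * P * ‖s' - s''‖) := by
        calc y' ^ m l * ‖q s' - q s''‖ ≤ B * K * ‖s' - s''‖ := h1
          _ ≤ s * y' ^ m l * P * ‖s' - s''‖ := mul_le_mul_of_nonneg_right h2 (norm_nonneg _)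
          _ = y' ^ m l * (s * P * ‖s' - s''‖) := by ring
      have h4 : ‖q s' - q s''‖ ≤ s * P * ‖s' - s''‖ :=
        le_of_mul_le_mul_left h3 (by positivity)
      refine h4.trans ?_
      gcongr
    · have h1 : t * R * (2 * B) = s * R := by
        rw [ht]
        field_simp
      calc ‖q 0 - z i N‖ ≤ B * (y' + x i N) := hq1
        _ ≤ B * (y + y) := by gcongr
        _ = t * R * (2 * B) := by rw [hy]; ring
        _ = s * R := h1
        _ ≤ σ * R := mul_le_mul_of_nonneg_right hsσ hR0.le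

end Pool.Agent.H947.BT207
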